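import Pool.Agent.Helper82.PL.RR
import Pool.Agent.Helper15.PL.RD

/-!
# Block RR: the flag system of a real configuration (assembly)
-/

namespace Pool.Agent.Helper15.PL

/-- Block RR. -/
theorem real_flags (a : Fin 14 → V3) (ha : IsConfig a) :
    ∃ S : FlagSys 14, 3 * (triTopes a).encard ≤ ((Finset.univ.filter S.tri).card : ℕ∞) ∧
      (∀ f : S.F, ∃ l, l ∉ S.vert f) ∧ S.HasCharts :=
  ⟨keySys a, three_mul_triTopes_le a ha (rr_h0 a ha) (rr_h1 a ha), rr_ne a ha, rr_charts a ha⟩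

end Pool.Agent.Helper15.PL
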