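import Pool.Agent.Helper82.PL.Key

/-!
# Germs in a wiring: the sign vectors of the flags of an affine picture
-/

namespace Pool.Agent.Helper15.PL

variable {n : ℕ}

/-- The crossing with line `m` is to the right of the germ `(i, a, d)`. -/
def rt (W : Wiring n) (i a : Fin n) (d : Bool) (m : Fin n) : Prop :=
  W.X i a < W.X i m ∨ (W.X i m = W.X i a ∧ d = false)

open Classical in
/-- The germ of a flag: `true` at `m` means that the face is above line `m`. -/
noncomputable def germ (W : Wiring n) (i a : Fin n) (d s : Bool) (m : Fin n) : Bool :=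
  if m = i then s else (decide (i < m) == decide (rt W i a d m))

theorem Wiring.conc (W : Wiring n) {i j k : Fin n} (hij : i ≠ j) (hik : i ≠ k) (hjk : j ≠ k)
    (h : W.X i j = W.X i k) : W.X i j = W.X j k := by
  have s1 := W.symm i j
  have s2 := W.symm i k
  have s3 := W.symm j k
  rcases lt_or_gt_of_ne hij with h1 | h1 <;> rcases lt_or_gt_of_ne hik with h2 | h2 <;>
    rcases lt_or_gt_of_ne hjk with h3 | h3
  · rcases W.btw i j k h1 h3 with ⟨c1, c2⟩ | ⟨c1, c2⟩ | ⟨c1, c2⟩ <;> linarith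
  · rcases W.btw i k j h2 h3 with ⟨c1, c2⟩ | ⟨c1, c2⟩ | ⟨c1, c2⟩ <;> linarith
  · exact absurd (h1.trans h3) (not_lt.2 h2.le)
  · rcases W.btw k i j h2 h1 with ⟨c1, c2⟩ | ⟨c1, c2⟩ | ⟨c1, c2⟩ <;> linarith
  · rcases W.btw j i k h1 h2 with ⟨c1, c2⟩ | ⟨c1, c2⟩ | ⟨c1, c2⟩ <;> linarith
  · exact absurd (h1.trans h2) (not_lt.2 h3.le)
  · rcases W.btw j k i h3 h2 with ⟨c1, c2⟩ | ⟨c1, c2⟩ | ⟨c1, c2⟩ <;> linarith
  · rcases W.btw k j i h3 h1 with ⟨c1, c2⟩ | ⟨c1, c2⟩ | ⟨c1, c2⟩ <;> linarith

/-- The position of the vertex `ij` relative to a line `m` not through it does not depend on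
whether it is seen on `i` or on `j`. -/
theorem Wiring.above (W : Wiring n) {i j m : Fin n} (hij : i ≠ j) (him : i ≠ m) (hjm : j ≠ m)
    (h : W.X i m ≠ W.X i j) :
    ((i < m ↔ W.X i j < W.X i m) ↔ (j < m ↔ W.X j i < W.X j m)) := by
  have s1 := W.symm i j
  have s2 := W.symm i m
  have s3 := W.symm j m
  rcases lt_or_gt_of_ne hij with h1 | h1 <;> rcases lt_or_gt_of_ne him with h2 | h2 <;>
    rcases lt_or_gt_of_ne hjm with h3 | h3
  · rcases W.btw i j m h1 h3 with ⟨c1, c2⟩ | ⟨c1, c2⟩ | ⟨c1, c2⟩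
    · simp only [h2, h3, true_iff]
      exact ⟨fun _ => by linarith, fun _ => by linarith⟩
    · exact absurd c1.symm h
    · simp only [h2, h3, true_iff]
      exact ⟨fun _ => by linarith, fun _ => by linarith⟩
  · rcases W.btw i m j h2 h3 with ⟨c1, c2⟩ | ⟨c1, c2⟩ | ⟨c1, c2⟩
    · simp only [h2, not_lt.2 h3.le, true_iff, false_iff]
      exact ⟨fun _ => by linarith, fun _ => by linarith⟩
    · exact absurd c1 h
    · simp only [h2, not_lt.2 h3.le, true_iff, false_iff]
      exact ⟨fun _ => by linarith, fun _ => by linarith⟩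
  · exact absurd (h1.trans h3) (not_lt.2 h2.le)
  · rcases W.btw m i j h2 h1 with ⟨c1, c2⟩ | ⟨c1, c2⟩ | ⟨c1, c2⟩
    · simp only [not_lt.2 h2.le, not_lt.2 h3.le, false_iff]
      exact ⟨fun _ => by linarith, fun _ => by linarith⟩
    · exact absurd (by linarith) h
    · simp only [not_lt.2 h2.le, not_lt.2 h3.le, false_iff]
      exact ⟨fun _ => by linarith, fun _ => by linarith⟩
  · rcases W.btw j i m h1 h2 with ⟨c1, c2⟩ | ⟨c1, c2⟩ | ⟨c1, c2⟩
    · simp only [h2, h3, true_iff]
      exact ⟨fun _ => by linarith, fun _ => by linarith⟩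
    · exact absurd (by linarith) h
    · simp only [h2, h3, true_iff]
      exact ⟨fun _ => by linarith, fun _ => by linarith⟩
  · exact absurd (h1.trans h2) (not_lt.2 h3.le)
  · rcases W.btw j m i h3 h2 with ⟨c1, c2⟩ | ⟨c1, c2⟩ | ⟨c1, c2⟩
    · simp only [not_lt.2 h2.le, h3, false_iff, true_iff]
      exact ⟨fun _ => by linarith, fun _ => by linarith⟩
    · exact absurd (by linarith) h
    · simp only [not_lt.2 h2.le, h3, false_iff, true_iff]
      exact ⟨fun _ => by linarith, fun _ => by linarith⟩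
  · rcases W.btw m j i h3 h1 with ⟨c1, c2⟩ | ⟨c1, c2⟩ | ⟨c1, c2⟩
    · simp only [not_lt.2 h2.le, not_lt.2 h3.le, false_iff]
      exact ⟨fun _ => by linarith, fun _ => by linarith⟩
    · exact absurd (by linarith) h
    · simp only [not_lt.2 h2.le, not_lt.2 h3.le, false_iff]
      exact ⟨fun _ => by linarith, fun _ => by linarith⟩

/-! ### Germs on one line -/

theorem germ_self (W : Wiring n) (i a : Fin n) (d s : Bool) : germ W i a d s i = s := by
  simp [germ]

theorem germ_ne (W : Wiring n) {i a m : Fin n} (d s : Bool) (h : m ≠ i) :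
    germ W i a d s m = true ↔ (i < m ↔ rt W i a d m) := by
  simp [germ, h]

theorem germ_iff (W : Wiring n) {i a b m : Fin n} {d s d' s' : Bool} (h : m ≠ i) :
    (germ W i a d s m = germ W i b d' s' m) ↔ (rt W i a d m ↔ rt W i b d' m) := by
  rw [Bool.eq_iff_iff, germ_ne W d s h, germ_ne W d' s' h]
  by_cases c : i < m <;> simp only [c, true_iff, false_iff, not_iff_not]

theorem germ_not_iff (W : Wiring n) {i a b m : Fin n} {d s d' s' : Bool} (h : m ≠ i) :
    (germ W i a d s m = !germ W i b d' s' m) ↔ (rt W i a d m ↔ ¬ rt W i b d' m) := by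
  have h1 := germ_iff W (a := a) (b := b) (d := d) (s := s) (d' := d') (s' := s') h
  by_cases c1 : rt W i a d m <;> by_cases c2 : rt W i b d' m <;>
    cases h2 : germ W i a d s m <;> cases h3 : germ W i b d' s' m <;> simp_all

/-- Two germs on the same line that agree. -/
theorem pos_plus (W : Wiring n) {i a b : Fin n} {d s d' s' : Bool} (ha : i ≠ a) (hb : i ≠ b)
    (h : ∀ m, germ W i a d s m = germ W i b d' s' m) :
    s = s' ∧ ((W.X i a = W.X i b ∧ d = d') ∨ (d = true ∧ d' = false ∧ W.X i a < W.X i b) ∨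
      (d = false ∧ d' = true ∧ W.X i b < W.X i a)) := by
  have h1 := h i
  rw [germ_self, germ_self] at h1
  refine ⟨h1, ?_⟩
  have ka := (germ_iff W ha.symm).1 (h a)
  have kb := (germ_iff W hb.symm).1 (h b)
  simp only [rt, lt_irrefl, false_or, true_and] at ka kb
  cases d <;> cases d' <;> simp at ka kb ⊢ <;>
    rcases lt_trichotomy (W.X i a) (W.X i b) with c | c | c <;>
    simp_all [le_of_lt, not_lt_of_gt, ne_of_lt, ne_of_gt] <;> linarith

/-- Two germs on the same line that are opposite. -/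
theorem pos_minus (W : Wiring n) {i a b m₀ : Fin n} {d s d' s' : Bool} (ha : i ≠ a) (hb : i ≠ b)
    (hm : m₀ ≠ i) (hm₀ : W.X i m₀ ≠ W.X i a)
    (h : ∀ m, germ W i a d s m = !germ W i b d' s' m) :
    s = !s' ∧ ((d = true ∧ d' = false ∧ W.X i b < W.X i a) ∨
      (d = false ∧ d' = true ∧ W.X i a < W.X i b)) := by
  have h1 := h i
  rw [germ_self, germ_self] at h1
  refine ⟨h1, ?_⟩
  have ka := (germ_not_iff W ha.symm).1 (h a)
  have kb := (germ_not_iff W hb.symm).1 (h b)
  have km := (germ_not_iff W hm).1 (h m₀)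
  simp only [rt, lt_irrefl, false_or, true_and] at ka kb km
  rcases lt_trichotomy (W.X i a) (W.X i b) with c | c | c
  · cases d <;> cases d' <;>
      simp_all [not_lt_of_gt, ne_of_lt, ne_of_gt]
  · rcases lt_trichotomy (W.X i a) (W.X i m₀) with c' | c' | c' <;> cases d <;> cases d' <;>
      simp_all [not_lt_of_gt, ne_of_lt, ne_of_gt]
  · cases d <;> cases d' <;>
      simp_all [not_lt_of_gt, ne_of_lt, ne_of_gt]

/-- The relation of two germs. -/
def GRel (g g' : Fin n → Bool) : Prop := (∀ m, g m = g' m) ∨ (∀ m, g m = !g' m)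

/-- The flags `(i, a, d, s)` and `(i, b, d', s')` are the same. -/
def PEq (W : Wiring n) (i a : Fin n) (d s : Bool) (b : Fin n) (d' s' : Bool) : Prop :=
  W.X i a = W.X i b ∧ d = d' ∧ s = s'

theorem uniq0 (W : Wiring n) {i a b c : Fin n} {d s d' s' d'' s'' : Bool}
    (ha : i ≠ a) (hb : i ≠ b) (hc : i ≠ c) (hm : ∀ x, i ≠ x → ∃ m, m ≠ i ∧ W.X i m ≠ W.X i x)
    (h1 : GRel (germ W i a d s) (germ W i b d' s')) (h2 : GRel (germ W i a d s) (germ W i c d'' s''))
    (n1 : ¬ PEq W i a d s b d' s') (n2 : ¬ PEq W i a d s c d'' s'') :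
    PEq W i b d' s' c d'' s'' := by
  obtain ⟨ma, hma, hma'⟩ := hm a ha
  obtain ⟨mb, hmb, hmb'⟩ := hm b hb
  rcases h1 with h1 | h1 <;> rcases h2 with h2 | h2
  · obtain ⟨e1, p1⟩ := pos_plus W ha hb h1
    obtain ⟨e2, p2⟩ := pos_plus W ha hc h2
    obtain ⟨e3, p3⟩ := pos_plus W hb hc (fun m => (h1 m).symm.trans (h2 m))
    unfold PEq at *
    rcases p1 with ⟨q1, q1'⟩ | ⟨q1, q1', q1''⟩ | ⟨q1, q1', q1''⟩
    · exact absurd ⟨q1, q1', e1⟩ n1
    · rcases p2 with ⟨q2, q2'⟩ | ⟨q2, q2', q2''⟩ | ⟨q2, q2', q2''⟩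
      · exact absurd ⟨q2, q2', e2⟩ n2
      · rcases p3 with ⟨q3, q3'⟩ | ⟨q3, q3', q3''⟩ | ⟨q3, q3', q3''⟩
        · exact ⟨q3, q3', e3⟩
        · simp_all
        · simp_all
      · simp_all
    · rcases p2 with ⟨q2, q2'⟩ | ⟨q2, q2', q2''⟩ | ⟨q2, q2', q2''⟩
      · exact absurd ⟨q2, q2', e2⟩ n2
      · simp_all
      · rcases p3 with ⟨q3, q3'⟩ | ⟨q3, q3', q3''⟩ | ⟨q3, q3', q3''⟩
        · exact ⟨q3, q3', e3⟩
        · simp_all
        · simp_all
  · obtain ⟨e1, p1⟩ := pos_plus W ha hb h1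
    obtain ⟨e2, p2⟩ := pos_minus W ha hc hma hma' h2
    obtain ⟨e3, p3⟩ := pos_minus W hb hc hmb hmb' (fun m => (h1 m).symm.trans (h2 m))
    unfold PEq at *
    rcases p1 with ⟨q1, q1'⟩ | ⟨q1, q1', q1''⟩ | ⟨q1, q1', q1''⟩
    · exact absurd ⟨q1, q1', e1⟩ n1
    · rcases p2 with ⟨q2, q2', q2''⟩ | ⟨q2, q2', q2''⟩ <;>
      rcases p3 with ⟨q3, q3', q3''⟩ | ⟨q3, q3', q3''⟩ <;> simp_all
    · rcases p2 with ⟨q2, q2', q2''⟩ | ⟨q2, q2', q2''⟩ <;>
      rcases p3 with ⟨q3, q3', q3''⟩ | ⟨q3, q3', q3''⟩ <;> simp_all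
  · obtain ⟨e1, p1⟩ := pos_minus W ha hb hma hma' h1
    obtain ⟨e2, p2⟩ := pos_plus W ha hc h2
    obtain ⟨e3, p3⟩ := pos_minus W hb hc hmb hmb' (fun m => by rw [← h2 m, h1 m, Bool.not_not])
    unfold PEq at *
    rcases p2 with ⟨q1, q1'⟩ | ⟨q1, q1', q1''⟩ | ⟨q1, q1', q1''⟩
    · exact absurd ⟨q1, q1', e2⟩ n2
    · rcases p1 with ⟨q2, q2', q2''⟩ | ⟨q2, q2', q2''⟩ <;>
      rcases p3 with ⟨q3, q3', q3''⟩ | ⟨q3, q3', q3''⟩ <;> simp_all
    · rcases p1 with ⟨q2, q2', q2''⟩ | ⟨q2, q2', q2''⟩ <;>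
      rcases p3 with ⟨q3, q3', q3''⟩ | ⟨q3, q3', q3''⟩ <;> simp_all
  · obtain ⟨e1, p1⟩ := pos_minus W ha hb hma hma' h1
    obtain ⟨e2, p2⟩ := pos_minus W ha hc hma hma' h2
    have h3 : ∀ m, germ W i b d' s' m = germ W i c d'' s'' m := fun m => by
      have := (h1 m).symm.trans (h2 m)
      simpa using this
    obtain ⟨e3, p3⟩ := pos_plus W hb hc h3
    unfold PEq at *
    rcases p3 with ⟨q1, q1'⟩ | ⟨q1, q1', q1''⟩ | ⟨q1, q1', q1''⟩
    · exact ⟨q1, q1', e3⟩
    · rcases p1 with ⟨q2, q2', q2''⟩ | ⟨q2, q2', q2''⟩ <;>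
      rcases p2 with ⟨q3, q3', q3''⟩ | ⟨q3, q3', q3''⟩ <;> simp_all
    · rcases p1 with ⟨q2, q2', q2''⟩ | ⟨q2, q2', q2''⟩ <;>
      rcases p2 with ⟨q3, q3', q3''⟩ | ⟨q3, q3', q3''⟩ <;> simp_all

/-! ### Germs at one vertex -/

theorem germ_congr (W : Wiring n) {i a b : Fin n} (d s : Bool) (h : W.X i a = W.X i b) :
    germ W i a d s = germ W i b d s := by
  funext m
  by_cases hm : m = i
  · subst hm
    rw [germ_self, germ_self]
  · rw [Bool.eq_iff_iff, germ_ne W d s hm, germ_ne W d s hm]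
    simp only [rt, h]

/-- The lines through the vertex `(i, a)`. -/
def pv (W : Wiring n) (i a : Fin n) : Set (Fin n) := {m | m = i ∨ W.X i m = W.X i a}

theorem pv_congr (W : Wiring n) {i a b : Fin n} (h : W.X i a = W.X i b) : pv W i a = pv W i b := by
  simp [pv, h]

/-- The vertex `ij` seen from `i` and from `j`. -/
theorem pv_symm (W : Wiring n) {i j : Fin n} (hij : i ≠ j) : pv W i j = pv W j i := by
  ext m
  simp only [pv, Set.mem_ofPred_eq]
  by_cases h1 : m = i
  · subst h1; simp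
  by_cases h2 : m = j
  · subst h2; simp
  simp only [h1, h2, false_or]
  constructor
  · intro h
    have := W.conc hij (Ne.symm h1) (Ne.symm h2) h.symm
    rw [← this, W.symm]
  · intro h
    have := W.conc hij.symm (Ne.symm h2) (Ne.symm h1) h.symm
    rw [← this, W.symm]

theorem vtx_out (W : Wiring n) {i j m : Fin n} {d s d' s' : Bool} (hij : i ≠ j)
    (hm : m ∉ pv W i j) : germ W i j d s m = germ W j i d' s' m := by
  have hm' := hm
  rw [pv_symm W hij] at hm'
  simp only [pv, Set.mem_ofPred_eq, not_or] at hm hm'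
  rw [Bool.eq_iff_iff, germ_ne W d s hm.1, germ_ne W d' s' hm'.1]
  have h := W.above hij (Ne.symm hm.1) (Ne.symm hm'.1) hm.2
  have e1 : rt W i j d m ↔ W.X i j < W.X i m := by simp [rt, hm.2]
  have e2 : rt W j i d' m ↔ W.X j i < W.X j m := by simp [rt, hm'.2]
  rw [e1, e2]
  exact h

theorem vtx_in (W : Wiring n) {i a m : Fin n} {d s : Bool} (hmi : m ≠ i)
    (hm : W.X i m = W.X i a) : germ W i a d s m = true ↔ (m < i ↔ d = true) := by
  rw [germ_ne W d s hmi]
  have e1 : rt W i a d m ↔ d = false := by simp [rt, hm]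
  rw [e1]
  rcases lt_or_gt_of_ne hmi with h | h
  · simp [h, not_lt_of_gt h]
  · simp [h, not_lt_of_gt h]

theorem GRel.symm {g g' : Fin n → Bool} (h : GRel g g') : GRel g' g := by
  rcases h with h | h
  · exact Or.inl fun m => (h m).symm
  · exact Or.inr fun m => by rw [h m, Bool.not_not]

theorem GRel.trans {g g' g'' : Fin n → Bool} (h : GRel g g') (h' : GRel g' g'') : GRel g g'' := by
  rcases h with h | h <;> rcases h' with h' | h'
  · exact Or.inl fun m => (h m).trans (h' m)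
  · exact Or.inr fun m => (h m).trans (h' m)
  · exact Or.inr fun m => by rw [h m, h' m]
  · exact Or.inl fun m => by rw [h m, h' m, Bool.not_not]

theorem GRel.plus {g g' : Fin n → Bool} {m₀ : Fin n} (h : GRel g g') (h0 : g m₀ = g' m₀) :
    ∀ m, g m = g' m := by
  rcases h with h | h
  · exact h
  · have := h m₀
    rw [h0] at this
    cases hh : g' m₀ <;> simp [hh] at this

/-- Germs at the same vertex agree outside the vertex. -/
theorem germ_out (W : Wiring n) {i a j b m : Fin n} {d s d' s' : Bool} (ha : i ≠ a)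
    (hV : pv W i a = pv W j b) (hm : m ∉ pv W i a) : germ W i a d s m = germ W j b d' s' m := by
  have hj : j ∈ pv W i a := by rw [hV]; exact Or.inl rfl
  by_cases hij : i = j
  · subst hij
    have hb : a ∈ pv W i b := by rw [← hV]; exact Or.inr rfl
    rcases hb with hb | hb
    · exact absurd hb.symm ha
    · rw [germ_congr W d s hb]
      have hm2 : m ∉ pv W i b := by rw [← hV]; exact hm
      simp only [pv, Set.mem_ofPred_eq, not_or] at hm2
      rw [germ_iff W hm2.1]
      simp [rt, hm2.2]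
  · have h1 : W.X i j = W.X i a := by
      rcases hj with hj | hj
      · exact absurd hj.symm hij
      · exact hj
    have hi : i ∈ pv W j b := by rw [← hV]; exact Or.inl rfl
    have h2 : W.X j i = W.X j b := by
      rcases hi with hi | hi
      · exact absurd hi hij
      · exact hi
    rw [← germ_congr W d s h1, ← germ_congr W d' s' h2]
    apply vtx_out W hij
    rw [pv_congr W h1]
    exact hm

/-- The flags `(i, a, d, s)` and `(j, b, d', s')` are the same. -/
def FEq (W : Wiring n) (i a : Fin n) (d s : Bool) (j b : Fin n) (d' s' : Bool) : Prop :=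
  i = j ∧ W.X i a = W.X i b ∧ d = d' ∧ s = s'

theorem feq_of_same (W : Wiring n) {i a b : Fin n} {d s d' s' : Bool} (ha : i ≠ a) (hb : i ≠ b)
    (hV : pv W i a = pv W i b) (hm : ∃ m, m ∉ pv W i a)
    (h : GRel (germ W i a d s) (germ W i b d' s')) : FEq W i a d s i b d' s' := by
  obtain ⟨m, hm⟩ := hm
  have h1 := h.plus (germ_out W ha hV hm)
  obtain ⟨e1, p1⟩ := pos_plus W ha hb h1
  have hX : W.X i a = W.X i b := by
    have : a ∈ pv W i b := by rw [← hV]; exact Or.inr rfl
    rcases this with h | h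
    · exact absurd h.symm ha
    · exact h
  rcases p1 with ⟨q1, q2⟩ | ⟨q1, q2, q3⟩ | ⟨q1, q2, q3⟩
  · exact ⟨rfl, q1, q2, e1⟩
  · exact absurd hX q3.ne
  · exact absurd hX q3.ne'

theorem uniq1 (W : Wiring n) {i a j b k c : Fin n} {d s d' s' d'' s'' : Bool}
    (ha : i ≠ a) (hb : j ≠ b) (hc : k ≠ c) (hm : ∃ m, m ∉ pv W i a)
    (hV1 : pv W i a = pv W j b) (hV2 : pv W i a = pv W k c)
    (h1 : GRel (germ W i a d s) (germ W j b d' s')) (h2 : GRel (germ W i a d s) (germ W k c d'' s''))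
    (n1 : ¬ FEq W i a d s j b d' s') (n2 : ¬ FEq W i a d s k c d'' s'') :
    FEq W j b d' s' k c d'' s'' := by
  obtain ⟨m, hm⟩ := hm
  have hij : i ≠ j := by
    rintro rfl
    exact n1 (feq_of_same W ha hb hV1 ⟨m, hm⟩ h1)
  have hik : i ≠ k := by
    rintro rfl
    exact n2 (feq_of_same W ha hc hV2 ⟨m, hm⟩ h2)
  by_cases hjk : j = k
  · subst hjk
    exact feq_of_same W hb hc (hV1.symm.trans hV2) ⟨m, by rw [← hV1]; exact hm⟩ (h1.symm.trans h2)
  exfalso
  have g1 := h1.plus (germ_out W ha hV1 hm)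
  have g2 := h2.plus (germ_out W ha hV2 hm)
  have mi : i ∈ pv W i a := Or.inl rfl
  have mj : j ∈ pv W i a := by rw [hV1]; exact Or.inl rfl
  have mk : k ∈ pv W i a := by rw [hV2]; exact Or.inl rfl
  have in1 : ∀ x, x ∈ pv W i a → x ≠ i → W.X i x = W.X i a := fun x hx hxi => by
    rcases hx with h | h
    · exact absurd h hxi
    · exact h
  have in2 : ∀ x, x ∈ pv W i a → x ≠ j → W.X j x = W.X j b := fun x hx hxi => by
    rw [hV1] at hx
    rcases hx with h | h
    · exact absurd h hxi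
    · exact h
  have in3 : ∀ x, x ∈ pv W i a → x ≠ k → W.X k x = W.X k c := fun x hx hxi => by
    rw [hV2] at hx
    rcases hx with h | h
    · exact absurd h hxi
    · exact h
  have a1 := vtx_in W (d := d) (s := s) (Ne.symm hij) (in1 j mj (Ne.symm hij))
  have a2 := vtx_in W (d := d) (s := s) (Ne.symm hik) (in1 k mk (Ne.symm hik))
  have b1 := vtx_in W (d := d') (s := s') hij (in2 i mi hij)
  have b2 := vtx_in W (d := d') (s := s') (Ne.symm hjk) (in2 k mk (Ne.symm hjk))
  have c1 := vtx_in W (d := d'') (s := s'') hik (in3 i mi hik)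
  have c2 := vtx_in W (d := d'') (s := s'') hjk (in3 j mj hjk)
  rw [← g1 i, g2 i] at b1
  rw [g2 j] at a1
  rw [← g1 k, g2 k] at b2
  rw [g2 k] at a2
  have e1 := b1.symm.trans c1
  have e2 := a1.symm.trans c2
  have e3 := a2.symm.trans b2
  rcases lt_or_gt_of_ne hij with x | x <;> rcases lt_or_gt_of_ne hik with y | y <;>
    rcases lt_or_gt_of_ne hjk with z | z <;>
    simp only [x, y, z, not_lt_of_gt x, not_lt_of_gt y, not_lt_of_gt z, true_iff, false_iff] at e1 e2 e3 <;>
    cases d <;> cases d' <;> cases d'' <;> simp at e1 e2 e3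

/-! ### Neighbouring germs -/

theorem grel_next (W : Wiring n) {i a b : Fin n} (s : Bool) (hX : W.X i a < W.X i b)
    (h : ∀ l, l ≠ i → W.X i l ≤ W.X i a ∨ W.X i b ≤ W.X i l) :
    GRel (germ W i a true s) (germ W i b false s) := by
  left
  intro m
  by_cases hm : m = i
  · subst hm
    rw [germ_self, germ_self]
  · rw [germ_iff W hm]
    simp only [rt, Bool.true_eq_false, and_false, or_false, and_true]
    rcases h m hm with h1 | h1
    · constructor
      · intro h2
        linarith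
      · rintro (h2 | h2) <;> linarith
    · constructor
      · intro _
        rcases h1.lt_or_eq with h3 | h3
        · exact Or.inl h3
        · exact Or.inr h3.symm
      · intro _
        linarith

theorem grel_wrap (W : Wiring n) {i a b : Fin n} (s : Bool)
    (h : ∀ l, l ≠ i → W.X i l ≤ W.X i a ∧ W.X i b ≤ W.X i l) :
    GRel (germ W i a true s) (germ W i b false (!s)) := by
  right
  intro m
  by_cases hm : m = i
  · subst hm
    rw [germ_self, germ_self, Bool.not_not]
  · rw [germ_not_iff W hm]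
    simp only [rt, Bool.true_eq_false, and_false, or_false, and_true]
    obtain ⟨h1, h2⟩ := h m hm
    constructor
    · intro h3
      linarith
    · intro h3
      push Not at h3
      rcases h2.lt_or_eq with h4 | h4
      · linarith [h3.1]
      · exact absurd h4.symm h3.2

theorem grel_vtx (W : Wiring n) {i j : Fin n} {d s d' s' : Bool} (hij : i ≠ j)
    (hi : s = true ↔ (i < j ↔ d' = true)) (hj : s' = true ↔ (j < i ↔ d = true))
    (hm : ∀ m, m ≠ i → m ≠ j → W.X i m = W.X i j → ((m < i ↔ d = true) ↔ (m < j ↔ d' = true))) :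
    GRel (germ W i j d s) (germ W j i d' s') := by
  left
  intro m
  by_cases h1 : m = i
  · subst h1
    rw [germ_self, Bool.eq_iff_iff, vtx_in W hij rfl]
    exact hi
  by_cases h2 : m = j
  · subst h2
    rw [germ_self, Bool.eq_iff_iff, vtx_in W hij.symm rfl]
    exact hj.symm
  by_cases h3 : W.X i m = W.X i j
  · have h4 : W.X j m = W.X j i := by
      have := W.conc hij (Ne.symm h1) (Ne.symm h2) h3.symm
      rw [← this, W.symm]
    rw [Bool.eq_iff_iff, vtx_in W h1 h3, vtx_in W h2 h4]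
    exact hm m h1 h2 h3
  · apply vtx_out W hij
    simp only [pv, Set.mem_ofPred_eq, not_or]
    exact ⟨h1, h3⟩

theorem grel_right (W : Wiring n) {i j : Fin n} (hij : i < j)
    (h : ∀ l, i < l → l < j → W.X i l ≠ W.X i j) :
    GRel (germ W i j true true) (germ W j i true false) := by
  apply grel_vtx W hij.ne
  · simp [hij]
  · simp [not_lt_of_gt hij]
  · intro m h1 h2 h3
    have := h m
    rcases lt_or_gt_of_ne h1 with x | x <;> rcases lt_or_gt_of_ne h2 with y | y <;>
      simp_all [not_lt_of_gt] <;> exact absurd (x.trans hij) (not_lt_of_gt y)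

theorem grel_left (W : Wiring n) {i j : Fin n} (hij : i < j)
    (h : ∀ l, i < l → l < j → W.X i l ≠ W.X i j) :
    GRel (germ W i j false false) (germ W j i false true) := by
  apply grel_vtx W hij.ne
  · simp [hij]
  · simp [not_lt_of_gt hij]
  · intro m h1 h2 h3
    have := h m
    rcases lt_or_gt_of_ne h1 with x | x <;> rcases lt_or_gt_of_ne h2 with y | y <;>
      simp_all [not_lt_of_gt] <;> exact absurd (x.trans hij) (not_lt_of_gt y)

theorem grel_top (W : Wiring n) {i j : Fin n} (hij : i < j)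
    (h : ∀ l, l < i ∨ j < l → W.X i l ≠ W.X i j) :
    GRel (germ W j i true true) (germ W i j false true) := by
  apply GRel.symm
  apply grel_vtx W hij.ne
  · simp [hij]
  · simp [not_lt_of_gt hij]
  · intro m h1 h2 h3
    have := h m
    rcases lt_or_gt_of_ne h1 with x | x <;> rcases lt_or_gt_of_ne h2 with y | y <;>
      simp_all [not_lt_of_gt]

theorem grel_bot (W : Wiring n) {i j : Fin n} (hij : i < j)
    (h : ∀ l, l < i ∨ j < l → W.X i l ≠ W.X i j) :
    GRel (germ W i j true false) (germ W j i false false) := by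
  apply grel_vtx W hij.ne
  · simp [hij]
  · simp [not_lt_of_gt hij]
  · intro m h1 h2 h3
    have := h m
    rcases lt_or_gt_of_ne h1 with x | x <;> rcases lt_or_gt_of_ne h2 with y | y <;>
      simp_all [not_lt_of_gt]

end Pool.Agent.Helper15.PL
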