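import Pool.Agent.Helper15.PL.Flags

/-!
# Keys: intrinsic flags of a vector configuration

A flag (vertex, edge, face) of the arrangement of the lines `a i · x = 0` in the projective plane
is given by a frame `(v, u, w)` of `ℝ³`: `v` represents the vertex, `u` the direction of the edge
(on the line `i`), `w` the side of the face. The sign vector of the face is the vector of
lexicographic signs of `(a l · v, a l · u, a l · w)`; it is determined by the flag up to a global
sign. The key of the flag consists of the line `i`, the set of lines through the vertex and the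
sign vector up to a global sign.
-/

namespace Pool.Agent.Helper15.PL

variable {n : ℕ}

/-- The first nonzero number among `x, y, z` is positive. -/
def LexPos (x y z : ℝ) : Prop := 0 < x ∨ (x = 0 ∧ (0 < y ∨ (y = 0 ∧ 0 < z)))

open Classical in
/-- The sign vector of the cell that contains `v + δ u + δ² w` for small `δ > 0`. -/
noncomputable def signVec (a : Fin n → V3) (v u w : V3) : Fin n → Bool :=
  fun l => decide (LexPos (a l ⬝ᵥ v) (a l ⬝ᵥ u) (a l ⬝ᵥ w))

/-- A sign vector up to a global sign. -/
def rho (σ : Fin n → Bool) : Fin n → Fin n → Bool := fun l m => σ l == σ m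

/-- The lines through `v`. -/
noncomputable def vset (a : Fin n → V3) (v : V3) : Finset (Fin n) := by
  classical exact Finset.univ.filter fun l => a l ⬝ᵥ v = 0

/-- `(v, u, w)` is a frame for a flag with edge on line `i` (`v` is a vertex: some other line
contains it). -/
structure IsFrame (a : Fin n → V3) (i : Fin n) (v u w : V3) : Prop where
  hv : a i ⬝ᵥ v = 0
  hu : a i ⬝ᵥ u = 0
  hw : a i ⬝ᵥ w ≠ 0
  indep : LinearIndependent ℝ ![v, u]
  other : ∃ l, l ≠ i ∧ a l ⬝ᵥ v = 0

/-- Keys: line, vertex (the set of lines through it), face (the sign vector up to sign). -/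
abbrev Key (n : ℕ) : Type := Fin n × Finset (Fin n) × (Fin n → Fin n → Bool)

/-- The key of a frame. -/
noncomputable def keyOf (a : Fin n → V3) (i : Fin n) (v u w : V3) : Key n :=
  (i, vset a v, rho (signVec a v u w))

/-- The keys of the flags of the configuration. -/
def IsKey (a : Fin n → V3) (κ : Key n) : Prop :=
  ∃ i v u w, IsFrame a i v u w ∧ κ = keyOf a i v u w

/-- The type of flags of the configuration. -/
abbrev KF (a : Fin n → V3) : Type := {κ : Key n // IsKey a κ}

/-- `κ'` differs from `κ` only in the vertex. -/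
def Rel0 {a : Fin n → V3} (κ κ' : KF a) : Prop :=
  κ' ≠ κ ∧ κ'.1.1 = κ.1.1 ∧ κ'.1.2.2 = κ.1.2.2

/-- `κ'` differs from `κ` only in the line. -/
def Rel1 {a : Fin n → V3} (κ κ' : KF a) : Prop :=
  κ' ≠ κ ∧ κ'.1.2.1 = κ.1.2.1 ∧ κ'.1.2.2 = κ.1.2.2

/-- `κ'` differs from `κ` only in the face. -/
def Rel2 {a : Fin n → V3} (κ κ' : KF a) : Prop :=
  κ' ≠ κ ∧ κ'.1.1 = κ.1.1 ∧ κ'.1.2.1 = κ.1.2.1 ∧
    ∀ l m, l ≠ κ.1.1 → m ≠ κ.1.1 → κ'.1.2.2 l m = κ.1.2.2 l m

open Classical in
/-- The flag system of the configuration. -/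
noncomputable def keySys (a : Fin n → V3) : FlagSys n where
  F := KF a
  fin := Fintype.ofFinite _
  dec := Classical.decEq _
  s0 κ := if h : ∃ κ', Rel0 κ κ' then h.choose else κ
  s1 κ := if h : ∃ κ', Rel1 κ κ' then h.choose else κ
  s2 κ := if h : ∃ κ', Rel2 κ κ' then h.choose else κ
  line κ := κ.1.1
  vert κ := κ.1.2.1

/-- An affine picture of the configuration: in the coordinates `(x, y) ↦ x e1 + y e2 + e3` the
line `perm l` has the equation `y = s l * x + t l`. -/
structure Picture (a : Fin n → V3) where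
  e1 : V3
  e2 : V3
  e3 : V3
  perm : Equiv.Perm (Fin n)
  lam : Fin n → ℝ
  s : Fin n → ℝ
  t : Fin n → ℝ
  lam_ne : ∀ l, lam l ≠ 0
  smono : StrictMono s
  h1 : ∀ l, lam l * (a (perm l) ⬝ᵥ e1) = -s l
  h2 : ∀ l, lam l * (a (perm l) ⬝ᵥ e2) = 1
  h3 : ∀ l, lam l * (a (perm l) ⬝ᵥ e3) = -t l
  basis : ∀ x : V3, ∃ p q r : ℝ, x = p • e1 + q • e2 + r • e3

/-- The abscissa of the intersection point of the lines `l` and `k` of the picture. -/
noncomputable def Picture.X {a : Fin n → V3} (P : Picture a) (l k : Fin n) : ℝ :=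
  (P.t l - P.t k) / (P.s k - P.s l)

end Pool.Agent.Helper15.PL
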