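import Pool.Agent.Helper82.PL.Germ

/-!
# The chart of an affine picture (block RC)
-/

namespace Pool.Agent.Helper15.PL

variable {n : ℕ}

/-! ### Lexicographic signs -/

theorem LexPos.mul_pos {c x y z : ℝ} (hc : 0 < c) :
    LexPos (c * x) (c * y) (c * z) ↔ LexPos x y z := by
  simp [LexPos, hc, hc.ne']

theorem LexPos.neg {x y z : ℝ} (h : x ≠ 0 ∨ y ≠ 0 ∨ z ≠ 0) :
    LexPos (-x) (-y) (-z) ↔ ¬ LexPos x y z := by
  unfold LexPos
  rcases lt_trichotomy x 0 with hx | hx | hx
  · simp [hx, hx.ne, not_lt_of_gt hx]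
  · subst hx
    rcases lt_trichotomy y 0 with hy | hy | hy
    · simp [hy, hy.ne, not_lt_of_gt hy]
    · subst hy
      rcases lt_trichotomy z 0 with hz | hz | hz
      · simp [hz, not_lt_of_gt hz]
      · subst hz
        simp at h
      · simp [hz, not_lt_of_gt hz]
    · simp [hy, hy.ne', not_lt_of_gt hy]
  · simp [hx, hx.ne', not_lt_of_gt hx]

theorem LexPos.mul_neg {c x y z : ℝ} (hc : c < 0) (h : x ≠ 0 ∨ y ≠ 0 ∨ z ≠ 0) :
    LexPos (c * x) (c * y) (c * z) ↔ ¬ LexPos x y z := by
  rw [← LexPos.neg h, ← LexPos.mul_pos (c := -c) (x := -x) (y := -y) (z := -z) (by linarith)]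
  simp only [neg_mul_neg]

/-! ### Pictures -/

namespace Picture

variable {a : Fin n → V3} (P : Picture a)

/-- Normalised equation of the line `m`. -/
noncomputable def D (m : Fin n) (x : V3) : ℝ := P.lam m * (a (P.perm m) ⬝ᵥ x)

theorem D_add (m : Fin n) (x y : V3) : P.D m (x + y) = P.D m x + P.D m y := by
  simp [D, dotProduct_add, mul_add]

theorem D_smul (m : Fin n) (c : ℝ) (x : V3) : P.D m (c • x) = c * P.D m x := by
  simp [D, dotProduct_smul]
  ring

theorem D_e1 (m : Fin n) : P.D m P.e1 = -P.s m := P.h1 m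
theorem D_e2 (m : Fin n) : P.D m P.e2 = 1 := P.h2 m
theorem D_e3 (m : Fin n) : P.D m P.e3 = -P.t m := P.h3 m

theorem D_zero_iff (m : Fin n) (x : V3) : P.D m x = 0 ↔ a (P.perm m) ⬝ᵥ x = 0 := by
  simp [D, P.lam_ne m]

theorem dot_eq (m : Fin n) (x : V3) : a (P.perm m) ⬝ᵥ x = (P.lam m)⁻¹ * P.D m x := by
  have := P.lam_ne m
  rw [D]
  field_simp

theorem X_symm (l k : Fin n) : P.X l k = P.X k l := by
  unfold X
  rw [← neg_sub (P.s l) (P.s k), ← neg_sub (P.t k) (P.t l), neg_div_neg_eq]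

theorem X_mul {l k : Fin n} (h : l ≠ k) : (P.s k - P.s l) * P.X l k = P.t l - P.t k := by
  have : P.s k - P.s l ≠ 0 := sub_ne_zero.2 fun e => h (P.smono.injective e).symm
  unfold X
  field_simp

/-- The wiring of a picture. -/
noncomputable def W : Wiring n where
  X := P.X
  symm := P.X_symm
  btw := by
    intro i j k hij hjk
    have h1 := P.smono hij
    have h2 := P.smono hjk
    have e1 := P.X_mul hij.ne
    have e2 := P.X_mul hjk.ne
    have e3 := P.X_mul (hij.trans hjk).ne
    have e : (P.s j - P.s i) * (P.X i k - P.X i j) = (P.s k - P.s j) * (P.X j k - P.X i k) := by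
      linarith
    have p1 : 0 < P.s j - P.s i := by linarith
    have p2 : 0 < P.s k - P.s j := by linarith
    rcases lt_trichotomy (P.X i j) (P.X i k) with c | c | c
    · left
      refine ⟨c, ?_⟩
      have : 0 < (P.s k - P.s j) * (P.X j k - P.X i k) := by
        rw [← e]
        exact _root_.mul_pos p1 (by linarith)
      have := (pos_iff_pos_of_mul_pos this).1 p2
      linarith
    · right; left
      refine ⟨c, ?_⟩
      rw [c, sub_self, mul_zero] at e
      rcases mul_eq_zero.1 e.symm with h | h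
      · linarith
      · linarith
    · right; right
      refine ⟨?_, c⟩
      have : 0 < (P.s k - P.s j) * (P.X i k - P.X j k) := by
        have h3 : 0 < (P.s j - P.s i) * (P.X i j - P.X i k) := _root_.mul_pos p1 (by linarith)
        linarith
      have := (pos_iff_pos_of_mul_pos this).1 p2
      linarith

theorem W_X (l k : Fin n) : P.W.X l k = P.X l k := rfl

theorem realizes : Realizes (fun l => ![-P.s l, 1, -P.t l]) P.W := by
  intro i j k hij hjk
  have h1 := P.smono hij
  have h2 := P.smono hjk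
  have e1 := P.X_mul hij.ne
  have e3 := P.X_mul (hij.trans hjk).ne
  have p1 : 0 < P.s j - P.s i := by linarith
  have p2 : 0 < P.s k - P.s i := by linarith
  have hd : det3 ![-P.s i, 1, -P.t i] ![-P.s j, 1, -P.t j] ![-P.s k, 1, -P.t k] =
      (P.s j - P.s i) * (P.s k - P.s i) * (P.X i k - P.X i j) := by
    have : (P.s j - P.s i) * (P.s k - P.s i) * (P.X i k - P.X i j) =
      (P.s j - P.s i) * ((P.s k - P.s i) * P.X i k) -
        (P.s k - P.s i) * ((P.s j - P.s i) * P.X i j) := by ring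
    rw [this, e1, e3]
    simp [det3]
    ring
  have p3 : 0 < (P.s j - P.s i) * (P.s k - P.s i) := _root_.mul_pos p1 p2
  simp only [hd, W_X]
  constructor
  · rw [mul_pos_iff_of_pos_left p3, sub_pos]
  · rw [mul_eq_zero, or_iff_right p3.ne', sub_eq_zero, eq_comm]

/-! ### Frames in standard position -/

/-- `(v, u, w)` is a frame at the vertex `(l, k)` of the picture, edge to the side `d`, face on
the side `s`. -/
structure Std (l k : Fin n) (d s : Bool) (v u w : V3) : Prop where
  hv : ∃ c : ℝ, 0 < c ∧ v = c • (P.X l k • P.e1 + (P.s l * P.X l k + P.t l) • P.e2 + P.e3)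
  hu : ∃ α β : ℝ, (d = true ↔ 0 < β) ∧ β ≠ 0 ∧ u = α • v + β • (P.e1 + P.s l • P.e2)
  hw : (s = true ↔ 0 < P.D l w) ∧ P.D l w ≠ 0

variable {P} in
theorem Std.Dv {l k : Fin n} {d s : Bool} {v u w : V3} (h : P.Std l k d s v u w) :
    ∃ c, 0 < c ∧ P.D l v = 0 ∧ ∀ m, m ≠ l → P.D m v = c * ((P.s l - P.s m) * (P.X l k - P.X l m)) := by
  obtain ⟨c, hc, hv⟩ := h.hv
  have key : ∀ m, P.D m v = c * ((P.s l - P.s m) * P.X l k + (P.t l - P.t m)) := by
    intro m
    rw [hv]
    simp only [D_smul, D_add, D_e1, D_e2, D_e3]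
    ring
  refine ⟨c, hc, by rw [key]; ring, fun m hm => ?_⟩
  rw [key, ← P.X_mul hm.symm]
  ring

variable {P} in
/-- The sign vector of a frame in standard position. -/
theorem Std.lex {l k : Fin n} {d s : Bool} {v u w : V3} (h : P.Std l k d s v u w) (m : Fin n) :
    (P.D m v ≠ 0 ∨ P.D m u ≠ 0 ∨ P.D m w ≠ 0) ∧
      (LexPos (P.D m v) (P.D m u) (P.D m w) ↔ germ P.W l k d s m = true) := by
  obtain ⟨c, hc, hl, hv⟩ := h.Dv
  obtain ⟨α, β, hβ, hβ0, hu⟩ := h.hu
  by_cases hm : m = l
  · subst hm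
    rw [germ_self, hl]
    have h1 : P.D m u = 0 := by
      rw [hu]
      simp only [D_smul, D_add, D_e1, D_e2, hl]
      ring
    rw [h1]
    refine ⟨Or.inr (Or.inr h.hw.2), ?_⟩
    simp [LexPos, h.hw.1]
  · have h1 : P.D m u = α * P.D m v + β * (P.s l - P.s m) := by
      rw [hu]
      simp only [D_smul, D_add, D_e1, D_e2]
      ring
    have hs : P.s l - P.s m ≠ 0 := sub_ne_zero.2 fun e => hm (P.smono.injective e).symm
    rw [germ_ne _ _ _ hm, rt]
    simp only [W_X]
    by_cases hX : P.X l k = P.X l m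
    · have hv0 : P.D m v = 0 := by rw [hv m hm, hX]; ring
      rw [hv0, mul_zero, zero_add] at h1
      have hu0 : P.D m u ≠ 0 := by rw [h1]; exact mul_ne_zero hβ0 hs
      refine ⟨Or.inr (Or.inl hu0), ?_⟩
      rw [hv0, h1]
      have e1 : LexPos 0 (β * (P.s l - P.s m)) (P.D m w) ↔ 0 < β * (P.s l - P.s m) := by
        rw [h1] at hu0
        simp [LexPos, hu0]
      rw [e1, hX]
      simp only [lt_irrefl, false_or, true_and]
      rcases lt_or_gt_of_ne hm with x | x
      · have := P.smono x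
        have p : 0 < P.s l - P.s m := by linarith
        rw [mul_pos_iff_of_pos_right p, ← hβ]
        simp [not_lt_of_gt x]
      · have := P.smono x
        have p : P.s l - P.s m < 0 := by linarith
        have e2 : 0 < β * (P.s l - P.s m) ↔ ¬ 0 < β := by
          rw [mul_pos_iff]
          constructor
          · rintro (⟨_, h3⟩ | ⟨h2, _⟩)
            · linarith
            · linarith
          · intro h2
            right
            exact ⟨lt_of_le_of_ne (not_lt.1 h2) hβ0, p⟩
        rw [e2, ← hβ]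
        simp [x]
    · have hv0 : P.D m v ≠ 0 := by
        rw [hv m hm]
        exact mul_ne_zero hc.ne' (mul_ne_zero hs (sub_ne_zero.2 hX))
      refine ⟨Or.inl hv0, ?_⟩
      have e1 : LexPos (P.D m v) (P.D m u) (P.D m w) ↔ 0 < P.D m v := by
        simp [LexPos, hv0]
      rw [e1, hv m hm, mul_pos_iff_of_pos_left hc]
      simp only [Ne.symm hX, false_and, or_false]
      rcases lt_or_gt_of_ne hm with x | x
      · have := P.smono x
        have p : 0 < P.s l - P.s m := by linarith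
        rw [mul_pos_iff_of_pos_left p, sub_pos]
        simp only [not_lt_of_gt x, false_iff, not_lt]
        constructor
        · exact le_of_lt
        · exact fun h => lt_of_le_of_ne h (Ne.symm hX)
      · have := P.smono x
        have p : P.s l - P.s m < 0 := by linarith
        rw [mul_pos_iff]
        simp only [x, true_iff]
        constructor
        · rintro (⟨h2, _⟩ | ⟨_, h3⟩)
          · linarith
          · linarith
        · intro h3
          right
          exact ⟨p, by linarith⟩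

/-! ### The key of a frame in standard position -/

open Classical in
/-- The key of the flag `(l, k, d, s)` of the picture. -/
noncomputable def pkey (l k : Fin n) (d s : Bool) : Key n :=
  (P.perm l, Finset.univ.filter (fun x => P.perm.symm x ∈ pv P.W l k),
    rho fun x => xor (germ P.W l k d s (P.perm.symm x)) (decide (P.lam (P.perm.symm x) < 0)))

variable {P} in
theorem Std.dot_ne {l k : Fin n} {d s : Bool} {v u w : V3} (h : P.Std l k d s v u w) (x : Fin n) :
    (a x ⬝ᵥ v ≠ 0 ∨ a x ⬝ᵥ u ≠ 0 ∨ a x ⬝ᵥ w ≠ 0) := by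
  have h1 := (h.lex (P.perm.symm x)).1
  simp only [ne_eq, P.D_zero_iff, Equiv.apply_symm_apply] at h1
  exact h1

variable {P} in
theorem Std.key {l k : Fin n} {d s : Bool} {v u w : V3} (h : P.Std l k d s v u w) :
    keyOf a (P.perm l) v u w = P.pkey l k d s := by
  classical
  unfold keyOf pkey
  refine Prod.ext rfl (Prod.ext ?_ ?_)
  · ext x
    simp only [vset, Finset.mem_filter, Finset.mem_univ, true_and]
    obtain ⟨m, rfl⟩ := P.perm.surjective x
    rw [← P.D_zero_iff, Equiv.symm_apply_apply]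
    obtain ⟨c, hc, hl, hv⟩ := h.Dv
    by_cases hm : m = l
    · subst hm
      simp [hl, pv]
    · have hs : P.s l - P.s m ≠ 0 := sub_ne_zero.2 fun e => hm (P.smono.injective e).symm
      rw [hv m hm, mul_eq_zero, mul_eq_zero, or_iff_right hc.ne', or_iff_right hs, sub_eq_zero]
      simp only [pv, Set.mem_ofPred_eq, hm, false_or, W_X]
      exact eq_comm
  · refine congrArg rho ?_
    funext x
    obtain ⟨m, rfl⟩ := P.perm.surjective x
    rw [Equiv.symm_apply_apply]
    obtain ⟨h1, h2⟩ := h.lex m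
    unfold signVec
    rw [P.dot_eq, P.dot_eq, P.dot_eq]
    rcases lt_or_gt_of_ne (P.lam_ne m) with hl | hl
    · rw [Bool.eq_iff_iff]
      have : (P.lam m)⁻¹ < 0 := inv_neg''.2 hl
      simp [LexPos.mul_neg this h1, h2, hl]
    · rw [Bool.eq_iff_iff]
      have : 0 < (P.lam m)⁻¹ := inv_pos.2 hl
      simp [LexPos.mul_pos this, h2, not_lt_of_gt hl]

theorem li : LinearIndependent ℝ ![P.e1, P.e2, P.e3] := by
  apply linearIndependent_of_top_le_span_of_card_eq_finrank
  · intro x _
    obtain ⟨p, q, r, rfl⟩ := P.basis x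
    refine Submodule.add_mem _ (Submodule.add_mem _ ?_ ?_) ?_ <;> apply Submodule.smul_mem <;>
      apply Submodule.subset_span
    · exact ⟨0, rfl⟩
    · exact ⟨1, rfl⟩
    · exact ⟨2, rfl⟩
  · simp

theorem coord_zero {p q r : ℝ} (h : p • P.e1 + q • P.e2 + r • P.e3 = 0) : p = 0 ∧ q = 0 ∧ r = 0 := by
  have := Fintype.linearIndependent_iff.1 P.li ![p, q, r] (by
    simp only [Fin.sum_univ_three]
    exact h)
  exact ⟨this 0, this 1, this 2⟩

theorem exists_std {l k : Fin n} (hlk : l ≠ k) (d s : Bool) :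
    ∃ v u w, P.Std l k d s v u w ∧ IsFrame a (P.perm l) v u w := by
  obtain ⟨v, hv⟩ : ∃ v, v = P.X l k • P.e1 + (P.s l * P.X l k + P.t l) • P.e2 + P.e3 := ⟨_, rfl⟩
  obtain ⟨b, hb⟩ : ∃ b : ℝ, b = if d then 1 else -1 := ⟨_, rfl⟩
  obtain ⟨b', hb'⟩ : ∃ b : ℝ, b = if s then 1 else -1 := ⟨_, rfl⟩
  have hb1 : d = true ↔ 0 < b := by rw [hb]; cases d <;> simp
  have hb2 : b ≠ 0 := by rw [hb]; cases d <;> simp
  have hb1' : s = true ↔ 0 < b' := by rw [hb']; cases s <;> simp
  have hb2' : b' ≠ 0 := by rw [hb']; cases s <;> simp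
  have hstd : P.Std l k d s v (b • (P.e1 + P.s l • P.e2)) (b' • P.e2) := by
    refine ⟨⟨1, one_pos, by rw [hv, one_smul]⟩, ⟨0, b, hb1, hb2, by rw [zero_smul, zero_add]⟩, ?_⟩
    rw [D_smul, D_e2, mul_one]
    exact ⟨hb1', hb2'⟩
  refine ⟨v, b • (P.e1 + P.s l • P.e2), b' • P.e2, hstd, ?_, ?_, ?_, ?_, ?_⟩
  · rw [← P.D_zero_iff, hv]
    simp only [D_smul, D_add, D_e1, D_e2, D_e3]
    ring
  · rw [← P.D_zero_iff]
    simp only [D_smul, D_add, D_e1, D_e2]
    ring
  · rw [ne_eq, ← P.D_zero_iff, D_smul, D_e2, mul_one]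
    exact hb2'
  · rw [LinearIndependent.pair_iff]
    intro x y hxy
    have : (x * P.X l k + y * b) • P.e1 + (x * (P.s l * P.X l k + P.t l) + y * b * P.s l) • P.e2 +
        x • P.e3 = 0 := by
      rw [← hxy, hv]
      module
    obtain ⟨h1, h2, h3⟩ := P.coord_zero this
    rw [h3, zero_mul, zero_add] at h1
    exact ⟨h3, (mul_eq_zero.1 h1).resolve_right hb2⟩
  · refine ⟨P.perm k, fun h => hlk (P.perm.injective h).symm, ?_⟩
    rw [← P.D_zero_iff]
    obtain ⟨c, hc, hl, hv'⟩ := hstd.Dv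
    rw [hv' k hlk.symm]
    ring

theorem pkey_isKey {l k : Fin n} (hlk : l ≠ k) (d s : Bool) : IsKey a (P.pkey l k d s) := by
  obtain ⟨v, u, w, h1, h2⟩ := P.exists_std hlk d s
  exact ⟨P.perm l, v, u, w, h2, h1.key.symm⟩

theorem frame_std_aux {i : Fin n} {v u w : V3} (hf : IsFrame a i v u w) {p q r : ℝ}
    (hv : v = p • P.e1 + q • P.e2 + r • P.e3) (hr : 0 < r) :
    ∃ l k d s, l ≠ k ∧ P.perm l = i ∧ P.Std l k d s v u w := by
  obtain ⟨l, rfl⟩ := P.perm.surjective i
  obtain ⟨j, hj, hj'⟩ := hf.other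
  obtain ⟨k, rfl⟩ := P.perm.surjective j
  have hlk : l ≠ k := by rintro rfl; exact hj rfl
  obtain ⟨p', q', r', hu⟩ := P.basis u
  have e1 : P.D l v = 0 := (P.D_zero_iff _ _).2 hf.hv
  have e2 : P.D k v = 0 := (P.D_zero_iff _ _).2 hj'
  have e3 : P.D l u = 0 := (P.D_zero_iff _ _).2 hf.hu
  have e4 : P.D l w ≠ 0 := fun h => hf.hw ((P.D_zero_iff _ _).1 h)
  rw [hv] at e1 e2
  rw [hu] at e3
  simp only [D_smul, D_add, D_e1, D_e2, D_e3] at e1 e2 e3
  have hs : P.s k - P.s l ≠ 0 := sub_ne_zero.2 fun e => hlk (P.smono.injective e).symm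
  have hX := P.X_mul hlk
  have hp : p = r * P.X l k := by
    apply mul_left_cancel₀ hs
    have : (P.s k - P.s l) * (r * P.X l k) = r * ((P.s k - P.s l) * P.X l k) := by ring
    rw [this, hX]
    linarith
  have hq : q = r * (P.s l * P.X l k + P.t l) := by
    have : q = P.s l * p + P.t l * r := by linarith
    rw [this, hp]
    ring
  have hq' : q' = P.s l * p' + P.t l * r' := by linarith
  have huv : u = (r' / r) • v + (p' - r' * P.X l k) • (P.e1 + P.s l • P.e2) := by
    rw [hu, hv, hp, hq, hq']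
    have h1 : r' = (r' / r) * r := by field_simp
    generalize r' / r = z at *
    subst h1
    module
  have hβ : p' - r' * P.X l k ≠ 0 := by
    intro h
    rw [h, zero_smul, add_zero] at huv
    have := (LinearIndependent.pair_iff.1 hf.indep) (r' / r) (-1) (by rw [huv]; module)
    linarith [this.2]
  refine ⟨l, k, decide (0 < p' - r' * P.X l k), decide (0 < P.D l w), hlk, rfl,
    ⟨r, hr, ?_⟩, ⟨r' / r, p' - r' * P.X l k, by simp, hβ, huv⟩, by simp, e4⟩
  rw [hv, hp, hq]
  module

theorem frame_neg {i : Fin n} {v u w : V3} (hf : IsFrame a i v u w) :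
    IsFrame a i (-v) (-u) (-w) := by
  obtain ⟨h1, h2, h3, h4, h5⟩ := hf
  refine ⟨by simp [h1], by simp [h2], by simpa using h3, ?_, by simpa using h5⟩
  rw [LinearIndependent.pair_iff] at h4 ⊢
  intro s t hst
  have := h4 (-s) (-t) (by rw [← hst]; module)
  exact ⟨by linarith [this.1], by linarith [this.2]⟩

theorem keyOf_neg {i : Fin n} {v u w : V3}
    (h : ∀ x, a x ⬝ᵥ v ≠ 0 ∨ a x ⬝ᵥ u ≠ 0 ∨ a x ⬝ᵥ w ≠ 0) :
    keyOf a i (-v) (-u) (-w) = keyOf a i v u w := by
  classical
  unfold keyOf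
  refine Prod.ext rfl (Prod.ext ?_ ?_)
  · ext x
    simp [vset]
  · have : signVec a (-v) (-u) (-w) = fun x => !signVec a v u w x := by
      funext x
      rw [Bool.eq_iff_iff]
      simp only [signVec, dotProduct_neg, decide_eq_true_eq, Bool.not_eq_true', decide_eq_false_iff_not]
      exact LexPos.neg (h x)
    rw [this]
    funext x y
    simp only [rho]
    cases signVec a v u w x <;> cases signVec a v u w y <;> rfl

/-- Every key is the key of a flag of the picture. -/
theorem key_surj {κ : Key n} (hκ : IsKey a κ) : ∃ l k d s, l ≠ k ∧ κ = P.pkey l k d s := by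
  obtain ⟨i, v, u, w, hf, rfl⟩ := hκ
  obtain ⟨p, q, r, hv⟩ := P.basis v
  rcases lt_trichotomy r 0 with hr | hr | hr
  · obtain ⟨l, k, d, s, hlk, hl, hstd⟩ := P.frame_std_aux (frame_neg hf)
      (p := -p) (q := -q) (r := -r) (by rw [hv]; module) (by linarith)
    refine ⟨l, k, d, s, hlk, ?_⟩
    rw [← hstd.key, hl]
    symm
    apply keyOf_neg
    intro x
    simpa using hstd.dot_ne x
  · exfalso
    subst hr
    obtain ⟨j, hj, hj'⟩ := hf.other
    have e1 : P.D (P.perm.symm i) v = 0 := (P.D_zero_iff _ _).2 (by simpa using hf.hv)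
    have e2 : P.D (P.perm.symm j) v = 0 := (P.D_zero_iff _ _).2 (by simpa using hj')
    have hlk : P.perm.symm i ≠ P.perm.symm j := fun h => hj (P.perm.symm.injective h).symm
    rw [hv] at e1 e2
    simp only [D_smul, D_add, D_e1, D_e2, D_e3] at e1 e2
    have hs : P.s (P.perm.symm i) - P.s (P.perm.symm j) ≠ 0 :=
      sub_ne_zero.2 fun e => hlk (P.smono.injective e)
    have hp : p = 0 := by
      apply mul_left_cancel₀ hs
      linarith
    have hq : q = 0 := by
      rw [hp] at e1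
      linarith
    have hv0 : v = 0 := by rw [hv, hp, hq]; simp
    have := (LinearIndependent.pair_iff.1 hf.indep) 1 0 (by rw [hv0]; simp)
    exact one_ne_zero this.1
  · obtain ⟨l, k, d, s, hlk, hl, hstd⟩ := P.frame_std_aux hf hv hr
    exact ⟨l, k, d, s, hlk, by rw [← hstd.key, hl]⟩

/-! ### Equality of keys -/

theorem _root_.Pool.Agent.Helper15.PL.rho_eq_iff {f g : Fin n → Bool} :
    rho f = rho g ↔ GRel f g := by
  constructor
  · intro h
    have h' : ∀ x y, (f x == f y) = (g x == g y) := fun x y => congrFun (congrFun h x) y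
    by_cases hex : ∃ x, f x ≠ g x
    · obtain ⟨x, hx⟩ := hex
      right
      intro y
      have := h' x y
      cases h1 : f x <;> cases h2 : g x <;> cases h3 : f y <;> cases h4 : g y <;> simp_all
    · push Not at hex
      exact Or.inl hex
  · rintro (h | h)
    · congr 1
      exact funext h
    · funext x y
      simp only [rho, h x, h y]
      cases g x <;> cases g y <;> rfl

theorem pkey_fst (l k : Fin n) (d s : Bool) : (P.pkey l k d s).1 = P.perm l := rfl

theorem mem_pkey (l k : Fin n) (d s : Bool) (m : Fin n) :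
    P.perm m ∈ (P.pkey l k d s).2.1 ↔ m ∈ pv P.W l k := by
  simp [pkey]

theorem pkey_vert_iff {l k l' k' : Fin n} {d s d' s' : Bool} :
    (P.pkey l k d s).2.1 = (P.pkey l' k' d' s').2.1 ↔ pv P.W l k = pv P.W l' k' := by
  constructor
  · intro h
    ext m
    rw [← P.mem_pkey l k d s, ← P.mem_pkey l' k' d' s', h]
  · intro h
    ext x
    obtain ⟨m, rfl⟩ := P.perm.surjective x
    rw [mem_pkey, mem_pkey, h]

theorem pkey_rho_iff {l k l' k' : Fin n} {d s d' s' : Bool} :
    (P.pkey l k d s).2.2 = (P.pkey l' k' d' s').2.2 ↔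
      GRel (germ P.W l k d s) (germ P.W l' k' d' s') := by
  change rho _ = rho _ ↔ _
  rw [rho_eq_iff]
  constructor
  · rintro (h | h)
    · left
      intro m
      have := h (P.perm m)
      simp only [Equiv.symm_apply_apply] at this
      exact Bool.xor_left_inj.1 this
    · right
      intro m
      have := h (P.perm m)
      simp only [Equiv.symm_apply_apply] at this
      revert this
      cases germ P.W l k d s m <;> cases germ P.W l' k' d' s' m <;>
        cases decide (P.lam m < 0) <;> simp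
  · rintro (h | h)
    · left
      intro x
      simp only [h]
    · right
      intro x
      simp only [h]
      cases germ P.W l' k' d' s' (P.perm.symm x) <;>
        cases decide (P.lam (P.perm.symm x) < 0) <;> rfl

theorem noncon (ha : IsConfig a) {l k : Fin n} (hlk : l ≠ k) : ∃ m, m ∉ pv P.W l k := by
  by_contra h
  push Not at h
  obtain ⟨v, u, w, h1, h2⟩ := P.exists_std hlk true true
  have hv : v = 0 := by
    apply ha.spans
    intro x
    obtain ⟨m, rfl⟩ := P.perm.surjective x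
    have h3 := (P.mem_pkey l k true true m).2 (h m)
    rw [← h1.key] at h3
    simpa [keyOf, vset] using h3
  have := (LinearIndependent.pair_iff.1 h2.indep) 1 0 (by rw [hv]; simp)
  exact one_ne_zero this.1

theorem pkey_congr {l k l' k' : Fin n} {d s d' s' : Bool} (h : FEq P.W l k d s l' k' d' s') :
    P.pkey l k d s = P.pkey l' k' d' s' := by
  obtain ⟨rfl, h1, rfl, rfl⟩ := h
  refine Prod.ext rfl (Prod.ext ?_ ?_)
  · rw [pkey_vert_iff, pv_congr _ h1]
  · rw [pkey_rho_iff, germ_congr _ _ _ h1]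
    exact Or.inl fun _ => rfl

theorem feq_of_pkey (ha : IsConfig a) {l k l' k' : Fin n} {d s d' s' : Bool} (hlk : l ≠ k)
    (hlk' : l' ≠ k') (h : P.pkey l k d s = P.pkey l' k' d' s') : FEq P.W l k d s l' k' d' s' := by
  have h1 : l = l' := P.perm.injective (congrArg (fun κ => κ.1) h)
  subst h1
  have h2 := P.pkey_vert_iff.1 (congrArg (fun κ => κ.2.1) h)
  have h3 := P.pkey_rho_iff.1 (congrArg (fun κ => κ.2.2) h)
  exact feq_of_same P.W hlk hlk' h2 (P.noncon ha hlk) h3

theorem noncon' (ha : IsConfig a) (l x : Fin n) (h : l ≠ x) :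
    ∃ m, m ≠ l ∧ P.W.X l m ≠ P.W.X l x := by
  obtain ⟨m, hm⟩ := P.noncon ha h
  simp only [pv, Set.mem_ofPred_eq, not_or] at hm
  exact ⟨m, hm⟩

/-! ### Uniqueness of the neighbours -/

include P in
theorem rel0_unique (ha : IsConfig a) {κ κ' κ'' : KF a} (h1 : Rel0 κ κ') (h2 : Rel0 κ κ'') :
    κ' = κ'' := by
  obtain ⟨κ, hκ⟩ := κ
  obtain ⟨κ', hκ'⟩ := κ'
  obtain ⟨κ'', hκ''⟩ := κ''
  obtain ⟨l, k, d, s, hlk, rfl⟩ := P.key_surj hκ
  obtain ⟨l', k', d', s', hlk', rfl⟩ := P.key_surj hκ'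
  obtain ⟨l'', k'', d'', s'', hlk'', rfl⟩ := P.key_surj hκ''
  obtain ⟨n1, l1, r1⟩ := h1
  obtain ⟨n2, l2, r2⟩ := h2
  simp only [pkey_fst, EmbeddingLike.apply_eq_iff_eq] at l1 l2
  subst l1 l2
  rw [pkey_rho_iff] at r1 r2
  have := uniq0 P.W hlk hlk' hlk'' (P.noncon' ha _) r1.symm r2.symm
    (fun h => n1 (Subtype.ext (P.pkey_congr ⟨rfl, h.1, h.2.1, h.2.2⟩).symm))
    (fun h => n2 (Subtype.ext (P.pkey_congr ⟨rfl, h.1, h.2.1, h.2.2⟩).symm))
  exact Subtype.ext (P.pkey_congr ⟨rfl, this.1, this.2.1, this.2.2⟩)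

include P in
theorem rel1_unique (ha : IsConfig a) {κ κ' κ'' : KF a} (h1 : Rel1 κ κ') (h2 : Rel1 κ κ'') :
    κ' = κ'' := by
  obtain ⟨κ, hκ⟩ := κ
  obtain ⟨κ', hκ'⟩ := κ'
  obtain ⟨κ'', hκ''⟩ := κ''
  obtain ⟨l, k, d, s, hlk, rfl⟩ := P.key_surj hκ
  obtain ⟨l', k', d', s', hlk', rfl⟩ := P.key_surj hκ'
  obtain ⟨l'', k'', d'', s'', hlk'', rfl⟩ := P.key_surj hκ''
  obtain ⟨n1, v1, r1⟩ := h1
  obtain ⟨n2, v2, r2⟩ := h2
  rw [pkey_rho_iff] at r1 r2
  rw [pkey_vert_iff] at v1 v2
  have := uniq1 P.W hlk hlk' hlk'' (P.noncon ha hlk) v1.symm v2.symm r1.symm r2.symm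
    (fun h => n1 (Subtype.ext (P.pkey_congr h).symm))
    (fun h => n2 (Subtype.ext (P.pkey_congr h).symm))
  exact Subtype.ext (P.pkey_congr this)

theorem rel2_iff (ha : IsConfig a) {l k : Fin n} (hlk : l ≠ k) (d s : Bool) {κ : KF a} :
    Rel2 ⟨P.pkey l k d s, P.pkey_isKey hlk d s⟩ κ ↔ κ.1 = P.pkey l k d (!s) := by
  obtain ⟨κ, hκ⟩ := κ
  obtain ⟨l', k', d', s', hlk', rfl⟩ := P.key_surj hκ
  obtain ⟨m, hm⟩ := P.noncon ha hlk
  constructor
  · rintro ⟨n1, l1, v1, r1⟩
    simp only [pkey_fst, EmbeddingLike.apply_eq_iff_eq] at l1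
    subst l1
    rw [pkey_vert_iff] at v1
    have hm' : m ∉ pv P.W l' k' := by rw [v1]; exact hm
    have hX : P.W.X l' k' = P.W.X l' k := by
      have : k' ∈ pv P.W l' k := by rw [← v1]; exact Or.inr rfl
      rcases this with h | h
      · exact absurd h.symm hlk'
      · exact h
    have h1 := germ_out P.W (d := d') (s := s') (d' := d) (s' := s) hlk' v1 hm'
    have h2 := r1 (P.perm m) (P.perm k) (fun h => hm (Or.inl (P.perm.injective h)))
      (fun h => hlk (P.perm.injective h).symm)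
    simp only [pkey, rho, Equiv.symm_apply_apply] at h2
    rw [h1] at h2
    have h3 : germ P.W l' k' d' s' k = germ P.W l' k d s k := by
      revert h2
      cases germ P.W l' k d s m <;> cases germ P.W l' k' d' s' k <;> cases germ P.W l' k d s k <;>
        cases decide (P.lam m < 0) <;> cases decide (P.lam k < 0) <;> simp
    have h4 := vtx_in P.W (a := k') (m := k) (d := d') (s := s') hlk.symm hX.symm
    have h5 := vtx_in P.W (a := k) (m := k) (d := d) (s := s) hlk.symm rfl
    rw [h3] at h4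
    have hd : d' = d := by
      have h6 := h4.symm.trans h5
      by_cases c : k < l' <;> cases d <;> cases d' <;> simp_all
    subst hd
    have hs : s' = !s := by
      by_contra hc
      have hc' : s' = s := by
        revert hc
        cases s <;> cases s' <;> simp
      exact n1 (Subtype.ext (P.pkey_congr ⟨rfl, hX, rfl, hc'⟩))
    exact P.pkey_congr ⟨rfl, hX, rfl, hs⟩
  · intro h
    simp only at h
    refine ⟨?_, ?_, ?_, ?_⟩
    · intro h'
      have h'' : P.pkey l' k' d' s' = P.pkey l k d s := congrArg Subtype.val h'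
      rw [h] at h''
      have := (P.feq_of_pkey ha hlk hlk h'').2.2.2
      cases s <;> simp at this
    · simp only [h]
      rfl
    · simp only [h]
      rw [pkey_vert_iff]
    · intro x y hx hy
      simp only [h, pkey_fst] at hx hy ⊢
      obtain ⟨x, rfl⟩ := P.perm.surjective x
      obtain ⟨y, rfl⟩ := P.perm.surjective y
      have hx' : x ≠ l := fun h => hx (by rw [h])
      have hy' : y ≠ l := fun h => hy (by rw [h])
      simp only [pkey, rho, Equiv.symm_apply_apply]
      have e1 : germ P.W l k d (!s) x = germ P.W l k d s x := (germ_iff P.W hx').2 Iff.rfl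
      have e2 : germ P.W l k d (!s) y = germ P.W l k d s y := (germ_iff P.W hy').2 Iff.rfl
      rw [e1, e2]

include P in
theorem s0_eq (ha : IsConfig a) {κ κ' : KF a} (h : Rel0 κ κ') : (keySys a).s0 κ = κ' := by
  have hex : ∃ κ', Rel0 κ κ' := ⟨κ', h⟩
  have : (keySys a).s0 κ = hex.choose := dif_pos hex
  rw [this]
  exact P.rel0_unique ha hex.choose_spec h

include P in
theorem s1_eq (ha : IsConfig a) {κ κ' : KF a} (h : Rel1 κ κ') : (keySys a).s1 κ = κ' := by
  have hex : ∃ κ', Rel1 κ κ' := ⟨κ', h⟩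
  have : (keySys a).s1 κ = hex.choose := dif_pos hex
  rw [this]
  exact P.rel1_unique ha hex.choose_spec h

theorem _root_.Pool.Agent.Helper15.PL.Rel0.symm' {κ κ' : KF a} (h : Rel0 κ κ') : Rel0 κ' κ :=
  ⟨h.1.symm, h.2.1.symm, h.2.2.symm⟩

theorem _root_.Pool.Agent.Helper15.PL.Rel1.symm' {κ κ' : KF a} (h : Rel1 κ κ') : Rel1 κ' κ :=
  ⟨h.1.symm, h.2.1.symm, h.2.2.symm⟩

/-- The flags of the picture. -/
noncomputable def flag (κ₀ : KF a) (l k : Fin n) (d s : Bool) : KF a :=
  if h : l ≠ k then ⟨P.pkey l k d s, P.pkey_isKey h d s⟩ else κ₀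

theorem flag_eq (κ₀ : KF a) {l k : Fin n} (h : l ≠ k) (d s : Bool) :
    P.flag κ₀ l k d s = ⟨P.pkey l k d s, P.pkey_isKey h d s⟩ := dif_pos h

theorem rel0_flag (ha : IsConfig a) (κ₀ : KF a) {l k k' : Fin n} {s s' : Bool} (h : l ≠ k)
    (h' : l ≠ k') (hG : GRel (germ P.W l k true s) (germ P.W l k' false s')) :
    Rel0 (P.flag κ₀ l k true s) (P.flag κ₀ l k' false s') := by
  rw [flag_eq _ _ h, flag_eq _ _ h']
  refine ⟨?_, rfl, ?_⟩
  · intro h2
    have := (P.feq_of_pkey ha h' h (congrArg Subtype.val h2)).2.2.1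
    simp at this
  · rw [pkey_rho_iff]
    exact hG.symm

theorem rel1_flag (κ₀ : KF a) {l k : Fin n} {d s d' s' : Bool} (h : l ≠ k)
    (hG : GRel (germ P.W l k d s) (germ P.W k l d' s')) :
    Rel1 (P.flag κ₀ l k d s) (P.flag κ₀ k l d' s') := by
  rw [flag_eq _ _ h, flag_eq _ _ h.symm]
  refine ⟨?_, ?_, ?_⟩
  · intro h2
    have := congrArg (fun κ => κ.1.1) h2
    exact h (P.perm.injective this).symm
  · rw [pkey_vert_iff]
    exact (pv_symm P.W h).symm
  · rw [pkey_rho_iff]
    exact hG.symm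

/-- The chart of a picture. -/
noncomputable def chart (ha : IsConfig a) (κ₀ : KF a) : Chart (keySys a) P.W where
  perm := P.perm
  Φ := P.flag κ₀
  surj := by
    intro f
    obtain ⟨l, k, d, s, hlk, h⟩ := P.key_surj f.2
    refine ⟨l, k, d, s, hlk, ?_⟩
    rw [flag_eq _ _ hlk]
    exact Subtype.ext h.symm
  eq_iff := by
    intro i a' d s j b d' s' hi hj
    rw [flag_eq _ _ hi, flag_eq _ _ hj]
    constructor
    · intro h
      exact P.feq_of_pkey ha hi hj (congrArg Subtype.val h)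
    · intro h
      exact Subtype.ext (P.pkey_congr h)
  line_Φ := by
    intro i a' d s hi
    rw [flag_eq _ _ hi]
    rfl
  mem_vert := by
    intro i a' d s l hi
    rw [flag_eq _ _ hi]
    exact P.mem_pkey i a' d s l
  s2_Φ := by
    intro i a' d s hi
    rw [flag_eq _ _ hi, flag_eq _ _ hi]
    have hex : ∃ κ', Rel2 (⟨P.pkey i a' d s, P.pkey_isKey hi d s⟩ : KF a) κ' :=
      ⟨⟨P.pkey i a' d (!s), P.pkey_isKey hi d (!s)⟩, (P.rel2_iff ha hi d s).2 rfl⟩
    have : (keySys a).s2 ⟨P.pkey i a' d s, P.pkey_isKey hi d s⟩ = hex.choose := dif_pos hex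
    rw [this]
    exact Subtype.ext ((P.rel2_iff ha hi d s).1 hex.choose_spec)
  s0_next := by
    intro i a' b s hi hj hX hn
    have := P.rel0_flag ha κ₀ hi hj (grel_next P.W s hX hn)
    exact ⟨P.s0_eq ha this, P.s0_eq ha this.symm'⟩
  s0_wrap := by
    intro i a' b s hi hj hn
    have := P.rel0_flag ha κ₀ hi hj (grel_wrap P.W s hn)
    exact ⟨P.s0_eq ha this, P.s0_eq ha this.symm'⟩
  s1_right := by
    intro i j hij hn
    have := P.rel1_flag κ₀ hij.ne (grel_right P.W hij hn)
    exact ⟨P.s1_eq ha this, P.s1_eq ha this.symm'⟩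
  s1_left := by
    intro i j hij hn
    have := P.rel1_flag κ₀ hij.ne (grel_left P.W hij hn)
    exact ⟨P.s1_eq ha this, P.s1_eq ha this.symm'⟩
  s1_top := by
    intro i j hij hn
    have := P.rel1_flag κ₀ hij.ne' (grel_top P.W hij hn)
    exact ⟨P.s1_eq ha this, P.s1_eq ha this.symm'⟩
  s1_bot := by
    intro i j hij hn
    have := P.rel1_flag κ₀ hij.ne (grel_bot P.W hij hn)
    exact ⟨P.s1_eq ha this, P.s1_eq ha this.symm'⟩

end Picture

end Pool.Agent.Helper15.PL
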