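import Pool.Agent.Helper82.PL.RC
import Pool.Agent.Helper15.PL.RA

/-!
# Block RR: the flag system of a real configuration
-/

namespace Pool.Agent.Helper15.PL

theorem exists_pic (a : Fin 14 → V3) (ha : IsConfig a) (κ : KF a) : Nonempty (Picture a) := by
  obtain ⟨κ, i, v, u, w, hf, rfl⟩ := κ
  obtain ⟨P, -⟩ := exists_picture a ha i v u w hf
  exact ⟨P⟩

theorem rr_h0 (a : Fin 14 → V3) (ha : IsConfig a) :
    ∀ κ κ' : KF a, Rel0 κ κ' → (keySys a).s0 κ = κ' := by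
  intro κ κ' h
  obtain ⟨P⟩ := exists_pic a ha κ
  exact P.s0_eq ha h

theorem rr_h1 (a : Fin 14 → V3) (ha : IsConfig a) :
    ∀ κ κ' : KF a, Rel1 κ κ' → (keySys a).s1 κ = κ' := by
  intro κ κ' h
  obtain ⟨P⟩ := exists_pic a ha κ
  exact P.s1_eq ha h

theorem rr_ne (a : Fin 14 → V3) (ha : IsConfig a) :
    ∀ f : (keySys a).F, ∃ l, l ∉ (keySys a).vert f := by
  rintro ⟨κ, i, v, u, w, hf, rfl⟩
  by_contra h
  push Not at h
  have hv : v = 0 := by
    apply ha.spans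
    intro x
    have h3 := h x
    change x ∈ vset a v at h3
    simpa [vset] using h3
  have := (LinearIndependent.pair_iff.1 hf.indep) 1 0 (by rw [hv]; simp)
  exact one_ne_zero this.1

theorem rr_charts (a : Fin 14 → V3) (ha : IsConfig a) : (keySys a).HasCharts := by
  intro f
  obtain ⟨κ, hκ⟩ := f
  have hκ' := hκ
  obtain ⟨i, v, u, w, hf, hk⟩ := hκ'
  obtain ⟨P, hi, -, hX, c, α, β, μ, ν, γ, hc, hβ, hγ, hv, hu, hw⟩ := exists_picture a ha i v u w hf
  have hstd : P.Std 0 1 true true v u w := by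
    refine ⟨⟨c, hc, hv⟩, ⟨α, β, by simp [hβ], hβ.ne', hu⟩, ?_⟩
    have e1 : P.D 0 v = 0 := (P.D_zero_iff _ _).2 (by rw [hi]; exact hf.hv)
    have e2 : P.D 0 u = 0 := (P.D_zero_iff _ _).2 (by rw [hi]; exact hf.hu)
    have e3 : P.D 0 w = γ := by
      rw [hw, P.D_add, P.D_add, P.D_smul, P.D_smul, P.D_smul, e1, e2, P.D_e2]
      ring
    rw [e3]
    exact ⟨by simp [hγ], hγ.ne'⟩
  refine ⟨P.W, P.chart ha ⟨κ, hκ⟩, ?_, hX, _, P.realizes⟩
  change P.flag ⟨κ, hκ⟩ 0 1 true true = _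
  rw [P.flag_eq _ (by decide)]
  apply Subtype.ext
  change P.pkey 0 1 true true = κ
  rw [← hstd.key, hk, hi]

end Pool.Agent.Helper15.PL
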